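import Pool.Agent.helper37.L5.Spec

set_option autoImplicit false

namespace Pool.Agent.L5

open Pool.Agent.helper58.DC Pool.Agent.DI Pool.Agent.GR Pool.Agent.OB Pool.Agent.DR Pool.Agent.FI Pool.Agent.FI3 Pool.Agent.FI4 Pool.Agent.FI4I Pool.Agent.LE

section
variable {G : Type} [Group G]

theorem FRC5_conj [Fintype G] (f : G → ℂ) (h : G) : ∑ y, f (h⁻¹ * y * h) = ∑ y, f y :=
  Fintype.sum_equiv ((MulAut.conj h⁻¹).toEquiv) _ _ fun y => by simp

theorem FRC5_avg [Fintype G] (c : ℂ) (a : G → G → ℂ) (b : G → ℂ) :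
    ∑ y, (c * ∑ h, a h y) * b y = c * ∑ h, ∑ y, a h y * b y := by
  rw [Finset.sum_comm, Finset.mul_sum]
  refine Finset.sum_congr rfl fun y _ => ?_
  rw [mul_assoc, Finset.sum_mul]

theorem FRC5_sumH [Fintype G] (H : Subgroup G)
    [DecidablePred fun h : G => h ∈ H] (f : G → ℂ) :
    ∑ᶠ h ∈ (H : Set G), f h = ∑ h : G, if h ∈ H then f h else 0 := by
  rw [finsum_eq_sum_of_fintype]
  refine Finset.sum_congr rfl fun h _ => ?_
  by_cases hh : h ∈ H
  · rw [if_pos hh, finsum_eq_if, if_pos (show h ∈ (H : Set G) from hh)]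
  · rw [if_neg hh, finsum_eq_if, if_neg (show h ∉ (H : Set G) from hh)]

theorem FRC5_cvsum [Fintype G] (z w : G → ℂ) (g : G) : cv z w g = ∑ x, z x * w (x⁻¹ * g) :=
  finsum_eq_sum_of_fintype _

theorem FRC5_evsum [Fintype G] (φ i : G → ℂ) (g : G) : ev φ i g = ∑ x, i x * φ (g * x) :=
  finsum_eq_sum_of_fintype _

/-- `ev φ (cv a b) x` as a double sum -/
theorem FRC5_evcv [Fintype G] (φ a b : G → ℂ) (x : G) :
    ev φ (cv a b) x = ∑ y, ∑ z, a y * b z * φ (x * (y * z)) := by
  rw [FRC5_evsum]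
  simp only [FRC5_cvsum, Finset.sum_mul]
  rw [Finset.sum_comm]
  refine Finset.sum_congr rfl fun y _ => ?_
  refine Fintype.sum_equiv (Equiv.mulLeft y⁻¹) _ _ fun w => ?_
  simp [Equiv.coe_mulLeft]

end

theorem FRC5 (_hIDM : IDM_stmt) (hCCI : CCI_stmt) (_hCVF : CVF_stmt) (hEVM : EVM_stmt) (hQRS : QRS_stmt)
    (hB2 : B2_stmt) : FRC5_stmt := by
  classical
  intro G _ _ S H hSH e he hee horth φ hφ hne x hx
  have : Fintype G := Fintype.ofFinite G
  obtain ⟨hφ1, hφc, -, hφ0, -⟩ := (hB2 G H).2 φ hφ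
  obtain ⟨nφ, hnφ, hφn, -⟩ := hφ1
  have hφ1 : φ 1 ≠ 0 := by
    rw [hφn]
    exact_mod_cast hnφ.ne'
  have hS0 : (Nat.card S : ℂ) ≠ 0 := by exact_mod_cast Nat.card_pos.ne'
  have hconj : ∀ a b : G, b ∈ H → φ (a * b) = φ (b * a) := by
    intro a b hb
    have := hφc (a * b) b hb
    rw [← this]
    congr 1
    group
  set g : G → ℂ := ev φ e with hg
  -- (1) vanishing outside `S`
  have h1 : ∀ y ∈ H, y ∉ S → g y = 0 := by
    intro y hy hyS
    have ho := horth y⁻¹ (H.inv_mem hy) (fun h => hyS (by simpa using S.inv_mem h))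
    have e1 : g y = ∑ u, ∑ z, e u * e z * φ (y * (u * z)) := by
      rw [hg]
      conv_lhs => rw [← hee]
      exact FRC5_evcv φ e e y
    have e2 : ev φ (cv (fun z => e ((y⁻¹)⁻¹ * z * y⁻¹)) e) y = 0 := by
      rw [ho, FRC5_evsum]
      simp
    rw [FRC5_evcv, Finset.sum_comm] at e2
    rw [e1, ← e2]
    refine Finset.sum_congr rfl fun u _ => ?_
    -- `∑ z, e u * e z * φ (y (u z)) = ∑ z', e (y z' y⁻¹) * e u * φ (y (z' u))`
    refine Fintype.sum_equiv ((MulAut.conj y⁻¹).toEquiv) _ _ fun z => ?_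
    have e3 : ((MulAut.conj y⁻¹).toEquiv z : G) = y⁻¹ * z * y := by simp
    rw [e3]
    have e4 : (y⁻¹)⁻¹ * (y⁻¹ * z * y) * y⁻¹ = z := by group
    rw [e4]
    by_cases hz : z ∈ S
    · have e5 : φ (y * (u * z)) = φ (y * (y⁻¹ * z * y * u)) := by
        rw [show y * (u * z) = (y * u) * z by group, hconj _ z (hSH hz)]
        congr 1
        group
      rw [e5]
      ring
    · rw [he.2 z hz]
      ring
  -- (2) the averaged idempotent
  set E : G → ℂ := fun y => (Nat.card S : ℂ)⁻¹ * ∑ h : G, if h ∈ H then e (h⁻¹ * y * h) else 0 with hE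
  have hECF : CF H E := by
    constructor
    · intro k hk y
      simp only [hE]
      congr 1
      refine Fintype.sum_equiv (Equiv.mulLeft k⁻¹) _ _ fun h => ?_
      rw [Equiv.coe_mulLeft]
      have e1 : (k⁻¹ * h ∈ H) ↔ h ∈ H := H.mul_mem_cancel_left (H.inv_mem hk)
      simp only [e1]
      by_cases hh : h ∈ H
      · rw [if_pos hh, if_pos hh]
        congr 1
        group
      · rw [if_neg hh, if_neg hh]
    · intro y hy
      simp only [hE]
      rw [Finset.sum_eq_zero, mul_zero]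
      intro h _
      by_cases hh : h ∈ H
      · rw [if_pos hh]
        apply he.2
        intro h2
        apply hy
        have := H.mul_mem (H.mul_mem hh (hSH h2)) (H.inv_mem hh)
        rwa [show h * (h⁻¹ * y * h) * h⁻¹ = y by group] at this
      · rw [if_neg hh]
  have hEe : cv E e = e := by
    funext w
    have e1 : cv E e w = (Nat.card S : ℂ)⁻¹ * ∑ h : G, if h ∈ H then cv (fun y => e (h⁻¹ * y * h)) e w else 0 := by
      rw [FRC5_cvsum]
      refine (FRC5_avg _ (fun h y => if h ∈ H then e (h⁻¹ * y * h) else 0) _).trans ?_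
      congr 1
      refine Finset.sum_congr rfl fun h _ => ?_
      by_cases hh : h ∈ H
      · simp only [if_pos hh]
        rw [FRC5_cvsum]
      · simp only [if_neg hh, zero_mul, Finset.sum_const_zero]
    have e2 : ∀ h : G, (if h ∈ H then cv (fun y => e (h⁻¹ * y * h)) e w else 0) = if h ∈ S then e w else 0 := by
      intro h
      by_cases hS : h ∈ S
      · rw [if_pos hS, if_pos (hSH hS)]
        have e3 : (fun y => e (h⁻¹ * y * h)) = e := by
          funext y
          have := he.1 h⁻¹ (S.inv_mem hS) y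
          rwa [inv_inv] at this
        rw [e3, hee]
      · rw [if_neg hS]
        by_cases hh : h ∈ H
        · rw [if_pos hh, horth h hh hS]
        · rw [if_neg hh]
    rw [e1, Finset.sum_congr rfl fun h _ => e2 h, ← Finset.sum_filter, Finset.sum_const, nsmul_eq_mul]
    have e4 : ((Finset.univ.filter fun h : G => h ∈ S).card : ℂ) = Nat.card S := by
      rw [Nat.card_eq_fintype_card, Fintype.card_subtype]
    rw [e4, inv_mul_cancel_left₀ hS0]
  have hEE : cv E E = E := by
    funext w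
    have e1 : cv E E w = (Nat.card S : ℂ)⁻¹ * ∑ h : G, if h ∈ H then cv E (fun y => e (h⁻¹ * y * h)) w else 0 := by
      rw [FRC5_cvsum]
      have : ∀ y : G, E y * E (y⁻¹ * w) = (Nat.card S : ℂ)⁻¹ * ∑ h : G, if h ∈ H then E y * e (h⁻¹ * (y⁻¹ * w) * h) else 0 := by
        intro y
        conv_lhs => rw [show E (y⁻¹ * w) = (Nat.card S : ℂ)⁻¹ * ∑ h : G, if h ∈ H then e (h⁻¹ * (y⁻¹ * w) * h) else 0 from rfl]
        rw [mul_left_comm, Finset.mul_sum]
        congr 1
        refine Finset.sum_congr rfl fun h _ => ?_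
        rw [mul_ite, mul_zero]
      simp only [this]
      rw [← Finset.mul_sum, Finset.sum_comm]
      congr 1
      refine Finset.sum_congr rfl fun h _ => ?_
      by_cases hh : h ∈ H
      · simp only [if_pos hh]
        rw [FRC5_cvsum]
      · simp only [if_neg hh, Finset.sum_const_zero]
    rw [e1]
    conv_rhs => rw [hE]
    change (Nat.card S : ℂ)⁻¹ * _ = (Nat.card S : ℂ)⁻¹ * ∑ h : G, if h ∈ H then e (h⁻¹ * w * h) else 0
    congr 1
    refine Finset.sum_congr rfl fun h _ => ?_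
    by_cases hh : h ∈ H
    · rw [if_pos hh, if_pos hh]
      have e2 : cv E (fun y => e (h⁻¹ * y * h)) w = cv E e (h⁻¹ * w * h) := by
        rw [FRC5_cvsum, FRC5_cvsum]
        refine Fintype.sum_equiv ((MulAut.conj h⁻¹).toEquiv) _ _ fun y => ?_
        have e3 : ((MulAut.conj h⁻¹).toEquiv y : G) = h⁻¹ * y * h := by simp
        rw [e3]
        have e4 : E (h⁻¹ * y * h) = E y := by
          have := hECF.1 h⁻¹ (H.inv_mem hh) y
          rwa [inv_inv] at this
        rw [e4]
        congr 2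
        group
      rw [e2, hEe]
    · rw [if_neg hh, if_neg hh]
  have hccE : cc φ E = 1 := by
    have e1 := (hCCI G H φ hφ).2.1 E E hECF hECF
    rw [hEE] at e1
    have e2 : cc φ E ≠ 0 := by
      intro h0
      unfold cc at h0
      rw [div_eq_zero_iff] at h0
      have h0' := h0.resolve_right hφ1
      rw [finsum_eq_sum_of_fintype] at h0'
      apply hne
      have e3 : ∑ y, E y * φ y = (Nat.card S : ℂ)⁻¹ * ((Nat.card H : ℂ) * ev φ e 1) := by
        refine (FRC5_avg _ (fun h y => if h ∈ H then e (h⁻¹ * y * h) else 0) _).trans ?_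
        congr 1
        have e4 : ∀ h : G, ∑ y, (if h ∈ H then e (h⁻¹ * y * h) else 0) * φ y = if h ∈ H then ev φ e 1 else 0 := by
          intro h
          by_cases hh : h ∈ H
          · simp only [if_pos hh]
            rw [FRC5_evsum, ← FRC5_conj (fun y => e y * φ (1 * y)) h]
            refine Finset.sum_congr rfl fun y _ => ?_
            rw [one_mul]
            have := hφc y h⁻¹ (H.inv_mem hh)
            rw [inv_inv] at this
            rw [this]
          · simp only [if_neg hh, zero_mul, Finset.sum_const_zero]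
        rw [Finset.sum_congr rfl fun h _ => e4 h, ← Finset.sum_filter, Finset.sum_const, nsmul_eq_mul]
        congr 1
        rw [Nat.card_eq_fintype_card, Fintype.card_subtype]
      rw [e3] at h0'
      have h4 : (Nat.card H : ℂ) ≠ 0 := by exact_mod_cast Nat.card_pos.ne'
      exact ((mul_eq_zero.mp ((mul_eq_zero.mp h0').resolve_left (inv_ne_zero hS0))).resolve_left h4)
    exact (mul_left_cancel₀ e2 (by rw [mul_one]; exact e1)).symm
  have hφx : φ x = (Nat.card S : ℂ)⁻¹ * ∑ h : G, if h ∈ H then g (h⁻¹ * x * h) else 0 := by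
    have e1 := (hEVM G H φ hφ E hECF x hx).2
    rw [hccE, one_mul] at e1
    rw [← e1, FRC5_evsum]
    refine (FRC5_avg _ (fun h y => if h ∈ H then e (h⁻¹ * y * h) else 0) _).trans ?_
    congr 1
    refine Finset.sum_congr rfl fun h _ => ?_
    by_cases hh : h ∈ H
    · simp only [if_pos hh]
      rw [hg, FRC5_evsum, ← FRC5_conj (fun y => e y * φ (h⁻¹ * x * h * y)) h]
      refine Finset.sum_congr rfl fun y _ => ?_
      have e2 : φ (h⁻¹ * x * h * (h⁻¹ * y * h)) = φ (x * y) := by
        have := hφc (x * y) h⁻¹ (H.inv_mem hh)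
        rw [inv_inv] at this
        rw [← this]
        congr 1
        group
      rw [e2]
    · simp only [if_neg hh, zero_mul, Finset.sum_const_zero]
  -- (3) the restriction to `S`
  have hfin : (IrrOn S).Finite := (hB2 G S).1
  have hset : {ζ : G → ℂ | ζ ∈ IrrOn S ∧ cc ζ e = 1} = ((hfin.toFinset.filter fun ζ => cc ζ e = 1 : Finset (G → ℂ)) : Set (G → ℂ)) := by
    ext ζ
    simp
  have hcc01 : ∀ ζ ∈ IrrOn S, cc ζ e = 0 ∨ cc ζ e = 1 := by
    intro ζ hζ
    have e1 := (hCCI G S ζ hζ).2.1 e e he he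
    rw [hee] at e1
    by_cases h0 : cc ζ e = 0
    · exact Or.inl h0
    · exact Or.inr (mul_left_cancel₀ h0 (by rw [mul_one]; exact e1)).symm
  have h3 : ∀ y ∈ H, g y = ∑ᶠ ζ ∈ {ζ : G → ℂ | ζ ∈ IrrOn S ∧ cc ζ e = 1}, mt S φ ζ * ζ y := by
    intro y hy
    rw [hset, finsum_mem_coe_finset, Finset.sum_filter]
    by_cases hyS : y ∈ S
    · have e1 : g y = ∑ ζ ∈ hfin.toFinset, mt S φ ζ * ev ζ e y := by
        rw [hg, FRC5_evsum]
        have e2 : ∀ z : G, e z * φ (y * z) = ∑ ζ ∈ hfin.toFinset, mt S φ ζ * (e z * ζ (y * z)) := by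
          intro z
          by_cases hz : z ∈ S
          · rw [(hQRS G H S hSH φ hφ).2 (y * z) (S.mul_mem hyS hz), finsum_mem_eq_finite_toFinset_sum _ hfin, Finset.mul_sum]
            refine Finset.sum_congr rfl fun ζ _ => ?_
            ring
          · rw [he.2 z hz]
            simp
        rw [Finset.sum_congr rfl fun z _ => e2 z, Finset.sum_comm]
        refine Finset.sum_congr rfl fun ζ _ => ?_
        rw [← Finset.mul_sum, FRC5_evsum]
      rw [e1]
      refine Finset.sum_congr rfl fun ζ hζ => ?_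
      have hζ' : ζ ∈ IrrOn S := hfin.mem_toFinset.mp hζ
      rw [(hEVM G S ζ hζ' e he y hyS).2]
      rcases hcc01 ζ hζ' with h | h
      · rw [h, if_neg zero_ne_one]
        ring
      · rw [h, if_pos rfl, one_mul]
    · rw [h1 y hy hyS]
      symm
      refine Finset.sum_eq_zero fun ζ hζ => ?_
      have hζ' : ζ ∈ IrrOn S := hfin.mem_toFinset.mp hζ
      rw [((hB2 G S).2 ζ hζ').2.2.2.1 y hyS, mul_zero, ite_self]
  rw [hφx, FRC5_sumH, div_eq_inv_mul]
  congr 1
  refine Finset.sum_congr rfl fun h _ => ?_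
  by_cases hh : h ∈ H
  · rw [if_pos hh, if_pos hh]
    exact h3 _ (H.mul_mem (H.mul_mem (H.inv_mem hh) hx) hh)
  · rw [if_neg hh, if_neg hh]

end Pool.Agent.L5
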